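import Pool.Agent.Lib.MP_ed1a61_al_Y.Geod

/-!
# MP_ed1a61_al (S03478), block Y, module Four: four points (3.6)

PROOFS.
* `four_T`: geodesics `a` from `x` to `y`, `b` from `y` to `z` (`exists_geo`), `SlimN` with
  `n` the perimeter.  If `d (c m) (a k) ≤ R0`:
  `d x (c m) + d (c m) y ≤ (d x (a k) + R0) + (R0 + d (a k) y) = d x y + 2 R0`.  Similarly for `b
  k`:
  `d z (c m) + d (c m) y ≤ d z (b k) + R0 + R0 + d (b k) y = d y z + 2 R0`.
* `four_mid`: along a geodesic `c` from `x` to `z` there is `m ≤ d x z` with both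
  `d x (c m) + d (c m) y ≤ d x y + 2 R0` and `d z (c m) + d (c m) y ≤ d z y + 2 R0 + 2`: let `m` be
  the
  largest index `≤ d x z` for which the first inequality holds (it holds for `0`).  If `m = d x z`
  then `c m = z` and the second holds.  Otherwise at `m + 1` the first fails, so `four_T` gives
  `d z (c (m+1)) + d (c (m+1)) y ≤ d z y + 2 R0`, and each of the two distances changes by at most
  `1`.
  (Induction on `m`: either the first inequality holds up to `d x z`, or there is `m` where it holds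
  and fails at `m + 1`.)
* `four`: `c` a geodesic from `x` to `z`, `m` from `four_mid` for `y`, `four_T` for `w` at `m`.
  `d x z + d y w ≤ d x (c m) + d (c m) z + d y (c m) + d (c m) w`.
-/

noncomputable section

namespace SclIrr.Y

variable {V : Type} {adj : V → V → Prop} {d : V → V → ℕ}

theorem four_T (hG : Gm adj d) {R0 : ℕ} (hS : ∀ n, SlimN adj d n R0) {x z : V} {c : ℕ → V}
    (hc : Geo adj d x z c) (y : V) {m : ℕ} (hm : m ≤ d x z) :
    d x (c m) + d (c m) y ≤ d x y + 2 * R0 ∨ d z (c m) + d (c m) y ≤ d z y + 2 * R0 := by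
  obtain ⟨a, ha⟩ := exists_geo hG x y
  obtain ⟨b, hb⟩ := exists_geo hG y z
  rcases hS _ x y z a b c ha hb hc le_rfl m hm with ⟨k, hk, h⟩ | ⟨k, hk, h⟩
  · left
    have h1 := ha.dist_left hk
    have h2 := ha.dist_right hk
    have h3 := hG.tri x (a k) (c m)
    have h4 := hG.tri (c m) (a k) y
    have h5 := hG.symm (a k) (c m)
    omega
  · right
    have h1 := hb.dist_left hk
    have h2 := hb.dist_right hk
    have h3 := hG.tri z (b k) (c m)
    have h4 := hG.tri (c m) (b k) y
    have h5 := hG.symm (b k) (c m)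
    have h6 := hG.symm (b k) z
    have h7 := hG.symm (b k) y
    have h8 := hG.symm y z
    omega

theorem four_mid (hG : Gm adj d) {R0 : ℕ} (hS : ∀ n, SlimN adj d n R0) {x z : V} {c : ℕ → V}
    (hc : Geo adj d x z c) (y : V) : ∃ m ≤ d x z,
      d x (c m) + d (c m) y ≤ d x y + 2 * R0 ∧ d z (c m) + d (c m) y ≤ d z y + 2 * R0 + 2 := by
  classical
  by_cases hall : ∀ m ≤ d x z, d x (c m) + d (c m) y ≤ d x y + 2 * R0
  · refine ⟨d x z, le_rfl, hall _ le_rfl, ?_⟩
    rw [hc.last, hG.self]
    omega
  · push Not at hall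
    have hex : ∃ m, m ≤ d x z ∧ d x y + 2 * R0 < d x (c m) + d (c m) y := hall
    obtain ⟨hm1, hm2⟩ := Nat.find_spec hex
    rcases Nat.eq_zero_or_pos (Nat.find hex) with h0 | h0
    · rw [h0, hc.zero, hG.self] at hm2
      omega
    · obtain ⟨m, hm⟩ : ∃ m, Nat.find hex = m + 1 := ⟨Nat.find hex - 1, by omega⟩
      rw [hm] at hm1 hm2
      have h1 : d x (c m) + d (c m) y ≤ d x y + 2 * R0 := by
        by_contra hcon
        exact Nat.find_min hex (by omega : m < Nat.find hex) ⟨by omega, by omega⟩
      refine ⟨m, by omega, h1, ?_⟩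
      have h2 : d z (c (m + 1)) + d (c (m + 1)) y ≤ d z y + 2 * R0 := by
        rcases four_T hG hS hc y hm1 with h | h
        · omega
        · exact h
      have h3 := hG.one _ _ (hc.adj m (by omega))
      have h4 := hG.tri z (c (m + 1)) (c m)
      have h5 := hG.tri (c m) (c (m + 1)) y
      have h6 := hG.symm (c m) (c (m + 1))
      omega

theorem four (hG : Gm adj d) {R0 : ℕ} (hS : ∀ n, SlimN adj d n R0) (x y z w : V) :
    d x z + d y w ≤ max (d x y + d z w) (d x w + d y z) + 2 * (2 * R0 + 1) := by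
  obtain ⟨c, hc⟩ := exists_geo hG x z
  obtain ⟨m, hm, h1, h2⟩ := four_mid hG hS hc y
  have h3 := hG.tri x (c m) z
  have h4 := hG.tri y (c m) w
  have h5 := hG.symm (c m) z
  have h6 := hG.symm (c m) y
  have h7 := hG.symm z y
  rcases four_T hG hS hc w hm with h | h
  · have h8 := le_max_right (d x y + d z w) (d x w + d y z)
    omega
  · have h8 := le_max_left (d x y + d z w) (d x w + d y z)
    omega

end SclIrr.Y
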