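import Pool.Agent.Lib.MP_ed1a61_al_Y.SliceB

/-!
# MP_ed1a61_al (S03478), block Y, module SliceD: slicing from a linear filling in dual form

The same proof as in module Slice, with the cochain `sum_(k < R) L_k`.
-/

noncomputable section

namespace SclIrr.Y

variable {V : Type} {adj : V → V → Prop} {d : V → V → ℕ}

/-- linear filling, dual form: an antisymmetric cochain with sums at most `B` on the closed paths
of length at most `r` has sums at most `C B n` on the closed paths of length `n` -/
def LinFillD (adj : V → V → Prop) (C : ℝ) (r : ℕ) : Prop :=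
  ∀ (th : V → V → ℝ) (B : ℝ), 0 ≤ B → (∀ u v, th v u = -th u v) →
    (∀ (b : V) (f : List (V × V)), Pth adj b b f → f.length ≤ r → |psum th f| ≤ B) →
    ∀ (x : V) (l : List (V × V)), Pth adj x x l → |psum th l| ≤ C * B * l.length

theorem LinFill.dual {C : ℝ} {r : ℕ} (hL : LinFill adj C r) : LinFillD adj C r := by
  intro th B hB hth hf x l hl
  obtain ⟨ι, F, c, b, f, h1, h2, h3⟩ := hL x l hl
  rw [h3 th hth]
  calc |∑ i ∈ F, c i * psum th (f i)| ≤ ∑ i ∈ F, |c i * psum th (f i)| :=
        Finset.abs_sum_le_sum_abs _ _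
    _ ≤ ∑ i ∈ F, |c i| * B := by
        refine Finset.sum_le_sum fun i _ => ?_
        rw [abs_mul]
        exact mul_le_mul_of_nonneg_left (hf _ _ (h1 i).1 (h1 i).2) (abs_nonneg _)
    _ = (∑ i ∈ F, |c i|) * B := by rw [Finset.sum_mul]
    _ ≤ C * l.length * B := mul_le_mul_of_nonneg_right h2 hB
    _ = C * B * l.length := by ring

private theorem sliceD_sum (R : ℕ) : ∑ k ∈ Finset.range R, 2 * (k : ℝ) = (R : ℝ) * (R - 1) := by
  induction R with
  | zero => simp
  | succ n ih =>
    rw [Finset.sum_range_succ, ih]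
    push_cast
    ring

private theorem psum_sum {ι : Type} (F : Finset ι) (th : ι → V → V → ℝ) (l : List (V × V)) :
    psum (fun u v => ∑ k ∈ F, th k u v) l = ∑ k ∈ F, psum (th k) l := by
  induction l with
  | nil => simp
  | cons e l ih => rw [psum_cons, ih, ← Finset.sum_add_distrib]; simp

theorem slicingD (hG : Gm adj d) {C : ℝ} {r : ℕ} (hC : 0 ≤ C) (hL : LinFillD adj C r) {x y : V}
    {p : ℕ → V} (h : Geo adj d x y p) {i m j R N : ℕ} (him : i + R ≤ m) (hmj : m + R ≤ j)
    (hj : j ≤ d x y) (hl : Fp adj d (p m) R (p j) (p i) N) :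
    (R : ℝ) * (R - 1) ≤ C * r ^ 2 * (((j - i : ℕ) : ℝ) + N) := by
  obtain ⟨l, hpl, hlN, hfar⟩ := hl
  have hij : i + (j - i) = j := by omega
  have h1 : Pth adj (p i) (p j) (seg p i (j - i)) := by
    have := h.path_seg (i := i) (n := j - i) (by omega)
    rwa [hij] at this
  have hk : ∀ k ∈ Finset.range R,
      psum (Lk d (p m) (p (m - k)) k) (seg p i (j - i) ++ l) = 2 * (k : ℝ) := by
    intro k hk
    rw [Finset.mem_range] at hk
    rw [psum_append, psum_Lk_seg hG h him hmj hj hk, Lk_far hk hfar, add_zero]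
  have h2 : psum (fun u v => ∑ k ∈ Finset.range R, Lk d (p m) (p (m - k)) k u v)
      (seg p i (j - i) ++ l) = (R : ℝ) * (R - 1) := by
    rw [psum_sum, Finset.sum_congr rfl hk, sliceD_sum]
  have h3 := hL (fun u v => ∑ k ∈ Finset.range R, Lk d (p m) (p (m - k)) k u v) ((r : ℝ) ^ 2)
    (by positivity)
    (fun u v => by
      show ∑ k ∈ Finset.range R, Lk d (p m) (p (m - k)) k v u =
        -∑ k ∈ Finset.range R, Lk d (p m) (p (m - k)) k u v
      rw [← Finset.sum_neg_distrib]
      exact Finset.sum_congr rfl fun k _ => Lk_anti (p m) (p (m - k)) k u v)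
    (fun b f hf hr => by
      rw [psum_sum]
      exact (Finset.abs_sum_le_sum_abs _ _).trans
        (face_le hG (p m) (fun k => p (m - k)) R r hf hr))
    (p i) _ (h1.append hpl)
  rw [h2] at h3
  have h4 : ((seg p i (j - i) ++ l).length : ℝ) ≤ ((j - i : ℕ) : ℝ) + N := by
    rw [List.length_append, seg_length, Nat.cast_add]
    have : (l.length : ℝ) ≤ N := by exact_mod_cast hlN
    linarith
  exact ((le_abs_self _).trans h3).trans
    (mul_le_mul_of_nonneg_left h4 (mul_nonneg hC (by positivity)))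

end SclIrr.Y
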