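import Pool.Agent.Lib.MP_ed1a61_al_Y.Slim
import Pool.Agent.Lib.MP_ed1a61_al_Y.SliceD

/-!
# MP_ed1a61_al (S03478), block Y, module SlimD: slim triangles (3.5), dual form of the hypothesis
-/

noncomputable section

namespace SclIrr.Y

variable {V : Type} {adj : V → V → Prop} {d : V → V → ℕ}

private theorem slim_stepD (hG : Gm adj d) {C : ℝ} {r : ℕ} (hC : 0 ≤ C) (hL : LinFillD adj C r)
    {n R : ℕ} (hR : 1 ≤ R) (hS : SlimN adj d n R) (hS' : ¬ SlimN adj d n (R - 1)) :
    (R : ℝ) * (R - 1) ≤ C * r ^ 2 * (30 * R) := by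
  unfold SlimN at hS'
  push Not at hS'
  obtain ⟨x, y, z, a, b, c, ha, hb, hc, hn, m, hm, h1, h2⟩ := hS'
  have hT : Tri adj d n R x y z a b c m :=
    { ha := ha
      hb := hb
      hc := hc
      hn := hn
      hm := hm
      fa := fun k hk => by
        have := h1 k hk
        omega
      fb := fun k hk => by
        have := h2 k hk
        omega }
  obtain ⟨i, j, him, hmj, hj, hji, hl⟩ := hT.loop hG hR hS
  have h3 := slicingD hG hC hL hc him hmj hj hl
  refine h3.trans (mul_le_mul_of_nonneg_left ?_ (mul_nonneg hC (by positivity)))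
  have h4 : ((j - i : ℕ) : ℝ) ≤ 4 * R := by exact_mod_cast hji
  push_cast
  linarith

private theorem slim_monoD {n R R' : ℕ} (h : R ≤ R') (hS : SlimN adj d n R) :
    SlimN adj d n R' := by
  intro x y z a b c ha hb hc hn m hm
  rcases hS x y z a b c ha hb hc hn m hm with ⟨k, hk, h1⟩ | ⟨k, hk, h1⟩
  · exact Or.inl ⟨k, hk, h1.trans h⟩
  · exact Or.inr ⟨k, hk, h1.trans h⟩

theorem slimD (hG : Gm adj d) {C : ℝ} {r : ℕ} (hC : 0 ≤ C) (hL : LinFillD adj C r) {R0 : ℕ}
    (hR0 : 30 * (C * r ^ 2) + 1 ≤ R0) (n : ℕ) : SlimN adj d n R0 := by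
  classical
  have H : ∃ R, SlimN adj d n R := ⟨n, slimN_self hG n⟩
  have h1 := Nat.find_spec H
  refine slim_monoD ?_ h1
  rcases Nat.eq_zero_or_pos (Nat.find H) with h0 | h0
  · omega
  have h2 : ¬ SlimN adj d n (Nat.find H - 1) := Nat.find_min H (by omega)
  have h3 := slim_stepD hG hC hL h0 h1 h2
  have h4 : (0 : ℝ) < (Nat.find H : ℕ) := by exact_mod_cast h0
  have h5 : ((Nat.find H : ℕ) : ℝ) - 1 ≤ 30 * (C * r ^ 2) := by
    by_contra h6
    push Not at h6
    nlinarith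
  have h6 : ((Nat.find H : ℕ) : ℝ) ≤ R0 := by linarith
  exact_mod_cast h6

end SclIrr.Y
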