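import Pool.Agent.Lib.MP_ed1a61_al_Y.SliceB

/-!
# MP_ed1a61_al (S03478), block Y, module Slice: slicing (3.4)

PROOF.  `l` the far path from `p j` to `p i` (from `Fp`).  The closed path at `p i`:
`w = seg p i (j - i) ++ l` (`Geo.path_seg` with `i + (j - i) = j`, `Pth.append`), length
`(j - i) + l.length`.  `LinFill` for `w`: `F`, `c`, `b`, `f`.  For `k < R`, with
`L_k = Lk d (p m) (p (m - k)) k` (antisymmetric, `Lk_anti`):
`2 k = psum L_k w` (`psum_append`, `psum_Lk_seg`, `Lk_far`) `= sum c i * psum L_k (f i)`.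
Sum over `k < R`: `R (R - 1) = sum_i c i * sum_k psum L_k (f i) ≤ sum_i |c i| * r ^ 2` (`face_le`)
`≤ C * w.length * r ^ 2 ≤ C * r ^ 2 * ((j - i) + N)` as `0 ≤ C`.
(`Finset.sum_range_id_mul_two` or induction for `sum_(k<R) 2 k = R (R - 1)`.)
-/

noncomputable section

namespace SclIrr.Y

variable {V : Type} {adj : V → V → Prop} {d : V → V → ℕ}

private theorem slice_sum (R : ℕ) : ∑ k ∈ Finset.range R, 2 * (k : ℝ) = (R : ℝ) * (R - 1) := by
  induction R with
  | zero => simp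
  | succ n ih =>
    rw [Finset.sum_range_succ, ih]
    push_cast
    ring

theorem slicing (hG : Gm adj d) {C : ℝ} {r : ℕ} (hC : 0 ≤ C) (hL : LinFill adj C r) {x y : V}
    {p : ℕ → V} (h : Geo adj d x y p) {i m j R N : ℕ} (him : i + R ≤ m) (hmj : m + R ≤ j)
    (hj : j ≤ d x y) (hl : Fp adj d (p m) R (p j) (p i) N) :
    (R : ℝ) * (R - 1) ≤ C * r ^ 2 * (((j - i : ℕ) : ℝ) + N) := by
  obtain ⟨l, hpl, hlN, hfar⟩ := hl
  have hij : i + (j - i) = j := by omega
  have h1 : Pth adj (p i) (p j) (seg p i (j - i)) := by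
    have := h.path_seg (i := i) (n := j - i) (by omega)
    rwa [hij] at this
  obtain ⟨ι, F, c, b, f, hf, hc, hth⟩ := hL (p i) _ (h1.append hpl)
  have hk : ∀ k ∈ Finset.range R,
      2 * (k : ℝ) = ∑ a ∈ F, c a * psum (Lk d (p m) (p (m - k)) k) (f a) := by
    intro k hk
    rw [Finset.mem_range] at hk
    rw [← hth _ (fun u v => Lk_anti (p m) (p (m - k)) k u v), psum_append,
      psum_Lk_seg hG h him hmj hj hk, Lk_far hk hfar, add_zero]
  have h2 : (R : ℝ) * (R - 1) =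
      ∑ a ∈ F, c a * ∑ k ∈ Finset.range R, psum (Lk d (p m) (p (m - k)) k) (f a) := by
    rw [← slice_sum, Finset.sum_congr rfl hk, Finset.sum_comm]
    exact Finset.sum_congr rfl fun a _ => by rw [Finset.mul_sum]
  have h3 : ∀ a ∈ F, c a * ∑ k ∈ Finset.range R, psum (Lk d (p m) (p (m - k)) k) (f a) ≤
      |c a| * (r : ℝ) ^ 2 := by
    intro a _
    refine (le_abs_self _).trans ?_
    rw [abs_mul]
    refine mul_le_mul_of_nonneg_left ?_ (abs_nonneg _)
    exact (Finset.abs_sum_le_sum_abs _ _).trans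
      (face_le hG (p m) (fun k => p (m - k)) R r (hf a).1 (hf a).2)
  have h4 : ((seg p i (j - i) ++ l).length : ℝ) ≤ ((j - i : ℕ) : ℝ) + N := by
    rw [List.length_append, seg_length, Nat.cast_add]
    have : (l.length : ℝ) ≤ N := by exact_mod_cast hlN
    linarith
  calc (R : ℝ) * (R - 1) ≤ ∑ a ∈ F, |c a| * (r : ℝ) ^ 2 := h2.le.trans (Finset.sum_le_sum h3)
    _ = (∑ a ∈ F, |c a|) * (r : ℝ) ^ 2 := by rw [Finset.sum_mul]
    _ ≤ (C * ((seg p i (j - i) ++ l).length : ℝ)) * (r : ℝ) ^ 2 :=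
        mul_le_mul_of_nonneg_right hc (by positivity)
    _ ≤ (C * (((j - i : ℕ) : ℝ) + N)) * (r : ℝ) ^ 2 :=
        mul_le_mul_of_nonneg_right (mul_le_mul_of_nonneg_left h4 hC) (by positivity)
    _ = C * r ^ 2 * (((j - i : ℕ) : ℝ) + N) := by ring

end SclIrr.Y
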