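import Pool.Agent.Lib.MP_ed1a61_al_Y.Bridge
import Pool.Agent.Lib.MP_ed1a61_al_Y.Slim
import Pool.Agent.Lib.MP_ed1a61_al_Y.Four

/-!
# MP_ed1a61_al (S03478), block Y, module Main: a linear filling gives the four point inequality
-/

noncomputable section

namespace SclIrr.Y

/-- EXPORT of block Y -/
theorem fourPoint {G : Type} [Group G] {X ρ : Type} {gam : X → G} {rel : ρ → List (X × Bool)}
    {C : ℝ} {r : ℕ} (hC : 0 ≤ C) (hrel : ∀ j, val gam (rel j) = 1 ∧ (rel j).length ≤ r)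
    (hfill : ∀ w : List (X × Bool), val gam w = 1 → ∃ c : (G × ρ) →₀ ℝ,
      (∑ i ∈ c.support, |c i|) ≤ C * w.length ∧
      ch gam 1 w = ∑ i ∈ c.support, c i • ch gam i.1 (rel i.2))
    {S : Finset G} (hS : ∀ g, g ∈ S ↔ ∃ x, gam x = g)
    (hcl : Subgroup.closure (S : Set G) = ⊤) {d : G → G → ℕ}
    (hd : ∀ x y : G, d x y = sInf {n : ℕ | ∃ l : List G, l.length = n ∧
      (∀ s ∈ l, s ∈ S ∨ s⁻¹ ∈ S) ∧ l.prod = x⁻¹ * y}) :
    ∃ δ : ℕ, ∀ x y z w : G,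
      d x z + d y w ≤ max (d x y + d z w) (d x w + d y z) + 2 * δ := by
  have hG := gm_word hcl hd
  have hL := linFill_of_chains hrel hfill hS
  obtain ⟨R0, hR0⟩ := exists_nat_ge (30 * (C * (r : ℝ) ^ 2) + 1)
  exact ⟨2 * R0 + 1, four hG (slim hG hC hL hR0)⟩

end SclIrr.Y
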