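import Pool.Agent.Lib.MP_ed1a61_al_Y.Metric

/-!
# MP_ed1a61_al (S03478), block Y, module Bridge: from chains to cochains

PROOFS.
* `pair_ch`: `pr gam th = Finsupp.linearCombination ℝ (fun p : G × X => th p.1 (p.1 * gam p.2))`.
  Induction on the word; for one letter `(x, true)` the value is `th g (g * gam x)`; for `(x,
  false)`
  it is `-th (g * (gam x)⁻¹) (g * (gam x)⁻¹ * gam x) = -th (g * (gam x)⁻¹) g = th g (g * (gam
  x)⁻¹)`.
* `pth_edges`: induction.  `word_of_pth`: induction on `Pth`: the edge `(u, u * s)`, `s ∈ S`: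
  letter `(x, true)` with `gam x = s`; `s⁻¹ ∈ S`: letter `(x, false)` with `gam x = s⁻¹`; the value
  of
  the word is `x⁻¹ * y` (so `1` for a closed path).
* `psum_shift`: induction.
* `linFill_of_chains`: closed path `l` at `x`: word `w` with `edges gam x w = l`, `val gam w = 1`;
  `hfill w` gives `c`.  Take `ι = G × ρ`, `F = c.support`, coefficients `c`, base points `x * i.1`,
  faces `edges gam (x * i.1) (rel i.2)` (closed by `pth_edges` and `val = 1`, length by
  `edges_length`).  For antisymmetric `th` put `th' u v = th (x * u) (x * v)` (antisymmetric):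
  `psum th l = psum th' (edges gam 1 w) = pr gam th' (ch gam 1 w)
  = sum c i * pr gam th' (ch gam i.1 (rel i.2)) = sum c i * psum th' (edges gam i.1 (rel i.2))
  = sum c i * psum th (edges gam (x * i.1) (rel i.2))`.
-/

noncomputable section

namespace SclIrr.Y

variable {G : Type} [Group G] {X : Type}

/-- the pairing of `1`-chains with a cochain -/
def pr (gam : X → G) (th : G → G → ℝ) : ((G × X) →₀ ℝ) →ₗ[ℝ] ℝ :=
  Finsupp.linearCombination ℝ (fun p : G × X => th p.1 (p.1 * gam p.2))

theorem pair_ch (gam : X → G) {th : G → G → ℝ} (hth : ∀ u v, th v u = -th u v) (g : G)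
    (w : List (X × Bool)) : pr gam th (ch gam g w) = psum th (edges gam g w) := by
  induction w generalizing g with
  | nil => simp [ch, edges]
  | cons p w ih =>
    obtain ⟨a, b⟩ := p
    rw [ch, edges, map_add, ih, psum_cons]
    congr 1
    cases b
    · show pr gam th (-Finsupp.single (g * (gam a)⁻¹, a) 1) = th g (g * (gam a)⁻¹)
      rw [map_neg, pr, Finsupp.linearCombination_single, one_smul]
      show -th (g * (gam a)⁻¹) (g * (gam a)⁻¹ * gam a) = th g (g * (gam a)⁻¹)
      rw [inv_mul_cancel_right, hth g (g * (gam a)⁻¹), neg_neg]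
    · show pr gam th (Finsupp.single (g, a) 1) = th g (g * gam a)
      rw [pr, Finsupp.linearCombination_single, one_smul]

theorem edges_length (gam : X → G) (g : G) (w : List (X × Bool)) :
    (edges gam g w).length = w.length := by
  induction w generalizing g with
  | nil => rfl
  | cons p w ih => rw [edges, List.length_cons, List.length_cons, ih]

theorem psum_shift (gam : X → G) (th : G → G → ℝ) (x g : G) (w : List (X × Bool)) :
    psum th (edges gam (x * g) w) = psum (fun u v => th (x * u) (x * v)) (edges gam g w) := by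
  induction w generalizing g with
  | nil => simp [edges]
  | cons p w ih => rw [edges, edges, psum_cons, psum_cons, mul_assoc, ih]

theorem pth_edges {gam : X → G} {S : Finset G} (hS : ∀ g, g ∈ S ↔ ∃ x, gam x = g) (g : G)
    (w : List (X × Bool)) : Pth (ladj S) g (g * val gam w) (edges gam g w) := by
  induction w generalizing g with
  | nil =>
    have h : g * val gam [] = g := by simp [val]
    rw [h]
    exact Pth.nil g
  | cons p w ih =>
    have h : g * val gam (p :: w) = g * lv gam p * val gam w := by simp [val, mul_assoc]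
    rw [h]
    refine Pth.cons ⟨lv gam p, ?_, rfl⟩ (ih _)
    obtain ⟨a, b⟩ := p
    cases b
    · right
      rw [hS]
      exact ⟨a, (inv_inv _).symm⟩
    · left
      rw [hS]
      exact ⟨a, rfl⟩

theorem word_of_pth {gam : X → G} {S : Finset G} (hS : ∀ g, g ∈ S ↔ ∃ x, gam x = g) {x y : G}
    {l : List (G × G)} (h : Pth (ladj S) x y l) :
    ∃ w : List (X × Bool), edges gam x w = l ∧ val gam w = x⁻¹ * y := by
  induction h with
  | nil x => exact ⟨[], rfl, by simp [val]⟩
  | @cons x y z l h1 _ ih =>
    obtain ⟨w, h2, h3⟩ := ih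
    obtain ⟨s, hs, rfl⟩ := h1
    obtain ⟨p, hp⟩ : ∃ p : X × Bool, lv gam p = s := by
      rcases hs with hs | hs
      · rw [hS] at hs
        obtain ⟨a, rfl⟩ := hs
        exact ⟨(a, true), rfl⟩
      · rw [hS] at hs
        obtain ⟨a, ha⟩ := hs
        refine ⟨(a, false), ?_⟩
        show (gam a)⁻¹ = s
        rw [ha, inv_inv]
    refine ⟨p :: w, ?_, ?_⟩
    · rw [edges, hp, h2]
    · have h4 : val gam (p :: w) = lv gam p * val gam w := by simp [val]
      rw [h4, hp, h3, mul_inv_rev]
      group

theorem linFill_of_chains {ρ : Type} {gam : X → G} {rel : ρ → List (X × Bool)} {C : ℝ} {r : ℕ}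
    (hrel : ∀ j, val gam (rel j) = 1 ∧ (rel j).length ≤ r)
    (hfill : ∀ w : List (X × Bool), val gam w = 1 → ∃ c : (G × ρ) →₀ ℝ,
      (∑ i ∈ c.support, |c i|) ≤ C * w.length ∧
      ch gam 1 w = ∑ i ∈ c.support, c i • ch gam i.1 (rel i.2))
    {S : Finset G} (hS : ∀ g, g ∈ S ↔ ∃ x, gam x = g) : LinFill (ladj S) C r := by
  intro x l hl
  obtain ⟨w, h1, h2⟩ := word_of_pth hS hl
  rw [inv_mul_cancel] at h2
  obtain ⟨c, hc, hch⟩ := hfill w h2
  refine ⟨G × ρ, c.support, c, fun i => x * i.1, fun i => edges gam (x * i.1) (rel i.2),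
    ?_, ?_, ?_⟩
  · intro i
    constructor
    · have h := pth_edges hS (x * i.1) (rel i.2)
      rwa [(hrel i.2).1, mul_one] at h
    · rw [edges_length]
      exact (hrel i.2).2
  · rw [← h1, edges_length]
    exact hc
  · intro th hth
    have hth' : ∀ u v, (fun u v => th (x * u) (x * v)) v u =
        -(fun u v => th (x * u) (x * v)) u v := fun u v => hth _ _
    have h3 : psum th l = pr gam (fun u v => th (x * u) (x * v)) (ch gam 1 w) := by
      rw [pair_ch gam hth', ← psum_shift, mul_one, h1]
    rw [h3, hch, map_sum]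
    refine Finset.sum_congr rfl fun i _ => ?_
    rw [map_smul, pair_ch gam hth', ← psum_shift, smul_eq_mul]

end SclIrr.Y
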