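import Pool.Agent.Lib.MP_ed1a61_al_Y.Far

/-!
# MP_ed1a61_al (S03478), block Y, module Corner: the case of two different sides in 3.5

PROOF.  `A` a geodesic from `Y` to `x'`, `B` a geodesic from `Y` to `z'`, all their points at
distance
`≥ R` from `P`, `1 ≤ R`.
If `d Y x' ≤ 8 R`: from `z'` along `B` to `Y` (`Fp.side` with indices `d Y z'` and `0`, length
`d z' Y ≤ 6 R + 8 R`), then along `A` to `x'` (`≤ 8 R`): total `≤ 22 R`.
Otherwise let `u = A (d Y x' - 8 R)`, so `d u x' = 8 R` (`Geo.dist_right`).  Let `g` be a geodesic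
from
`z'` to `x'` (`exists_geo`).  `SlimN` for the triangle `Y, z', x'` (sides `a := B` from `Y` to `z'`,
`b := g` from `z'` to `x'`, `c := A` from `Y` to `x'`; the perimeter hypothesis) and the point `u`:
* either `d u (B k) ≤ R` for some `k ≤ d Y z'`.  Put `v = B k`.  `d u P ≥ 8 R - 3 R = 5 R`, so
  `Fp.short` gives a far path from `u` to `v` of length `≤ R`; from `z'` to `v` along `B`: length
  `d z' v ≤ 6 R + 8 R + R`; from `u` to `x'` along `A`: `8 R`.  Total `15 R + R + 8 R = 24 R`.
* or `d u (g k) ≤ R`: then `8 R = d u x' ≤ R + d (g k) x' ≤ R + 6 R`, impossible.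
-/

noncomputable section

namespace SclIrr.Y

variable {V : Type} {adj : V → V → Prop} {d : V → V → ℕ}

theorem corner (hG : Gm adj d) {n R : ℕ} (hR : 1 ≤ R) (hS : SlimN adj d n R) {P Y x' z' : V}
    {A B : ℕ → V} (hA : Geo adj d Y x' A) (hB : Geo adj d Y z' B)
    (hfA : ∀ k ≤ d Y x', R ≤ d P (A k)) (hfB : ∀ k ≤ d Y z', R ≤ d P (B k))
    (hn : d Y x' + d Y z' + d x' z' ≤ n) (h6 : d x' z' ≤ 6 * R) (h3 : d P x' ≤ 3 * R) :
    Fp adj d P R z' x' (24 * R) := by
  have hzY : d z' Y = d Y z' := hG.symm _ _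
  have hzx : d z' x' = d x' z' := hG.symm _ _
  have ht1 : d Y z' ≤ d Y x' + d x' z' := hG.tri _ _ _
  by_cases h8 : d Y x' ≤ 8 * R
  · have h1 : Fp adj d P R z' Y (d z' Y) := by
      have h := Fp.side hG hB hfB (i := d Y z') (j := 0) le_rfl (Nat.zero_le _)
      rwa [hB.last, hB.zero] at h
    have h2 : Fp adj d P R Y x' (d Y x') := by
      have h := Fp.side hG hA hfA (i := 0) (j := d Y x') (Nat.zero_le _) le_rfl
      rwa [hA.last, hA.zero] at h
    exact (h1.trans h2).mono (by omega)
  · obtain ⟨m, hm⟩ : ∃ m, m = d Y x' - 8 * R := ⟨_, rfl⟩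
    have hm' : m ≤ d Y x' := by omega
    have hux : d (A m) x' = 8 * R := by
      rw [hA.dist_right hm']
      omega
    obtain ⟨g, hg⟩ := exists_geo hG z' x'
    have hPu : 5 * R ≤ d P (A m) := by
      have h4 : d x' P = d P x' := hG.symm _ _
      have h5 : d (A m) P = d P (A m) := hG.symm _ _
      have h6 : d (A m) x' ≤ d (A m) P + d P x' := hG.tri _ _ _
      omega
    rcases hS Y z' x' B g A hB hg hA (by omega) m hm' with ⟨k, hk, hle⟩ | ⟨k, hk, hle⟩
    · have h1 : Fp adj d P R (A m) (B k) (d (A m) (B k)) := Fp.short hG (by omega)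
      have h2 : Fp adj d P R z' (B k) (d z' (B k)) := by
        have h := Fp.side hG hB hfB (i := d Y z') (j := k) le_rfl hk
        rwa [hB.last] at h
      have h3' : Fp adj d P R (A m) x' (d (A m) x') := by
        have h := Fp.side hG hA hfA (i := m) (j := d Y x') hm' le_rfl
        rwa [hA.last] at h
      have h4 : d z' (B k) ≤ d z' x' + d x' (B k) := hG.tri _ _ _
      have h5 : d x' (B k) ≤ d x' (A m) + d (A m) (B k) := hG.tri _ _ _
      have h7 : d x' (A m) = d (A m) x' := hG.symm _ _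
      exact ((h2.trans (h1.symm hG)).trans h3').mono (by omega)
    · exfalso
      have h4 : d (A m) x' ≤ d (A m) (g k) + d (g k) x' := hG.tri _ _ _
      have h5 := hg.dist_right hk
      omega

end SclIrr.Y
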