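import Mathlib

/-!
# MP_ed1a61_al (S03478), block Y: linear l1 filling implies the four point inequality.  Definitions

Text: `/team-store/MP_ed1a61_h98_irrational.md`, sections 3.4, 3.5, 3.6.
-/

noncomputable section

namespace SclIrr.Y

section words

variable {G : Type} [Group G] {X : Type}

/-- the value of a letter (`true`: the generator, `false`: its inverse) -/
def lv (gam : X → G) (p : X × Bool) : G := bif p.2 then gam p.1 else (gam p.1)⁻¹

/-- the value of a word -/
def val (gam : X → G) (w : List (X × Bool)) : G := (w.map (lv gam)).prod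

/-- the oriented edges of the path from `g` with label `w` -/
def edges (gam : X → G) : G → List (X × Bool) → List (G × G)
  | _, [] => []
  | g, p :: w => (g, g * lv gam p) :: edges gam (g * lv gam p) w

/-- the `1`-chain of one letter at `g` -/
def chl (gam : X → G) (g : G) (p : X × Bool) : (G × X) →₀ ℝ :=
  bif p.2 then Finsupp.single (g, p.1) 1 else -Finsupp.single (g * (gam p.1)⁻¹, p.1) 1

/-- the `1`-chain of the path from `g` with label `w` -/
def ch (gam : X → G) : G → List (X × Bool) → ((G × X) →₀ ℝ)
  | _, [] => 0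
  | g, p :: w => chl gam g p + ch gam (g * lv gam p) w

end words

section graphs

variable {V : Type}

/-- the sum of `th` over a list of oriented edges -/
def psum (th : V → V → ℝ) (l : List (V × V)) : ℝ := (l.map fun e => th e.1 e.2).sum

/-- `Pth adj x y l`: `l` is the list of the oriented edges of a path from `x` to `y` -/
inductive Pth (adj : V → V → Prop) : V → V → List (V × V) → Prop
  | nil (x : V) : Pth adj x x []
  | cons {x y z : V} {l : List (V × V)} : adj x y → Pth adj y z l → Pth adj x z ((x, y) :: l)

/-- every closed path of length `n` is homologous, on antisymmetric cochains, to a real combination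
of closed paths of length at most `r` with coefficient sum at most `C * n` -/
def LinFill (adj : V → V → Prop) (C : ℝ) (r : ℕ) : Prop :=
  ∀ (x : V) (l : List (V × V)), Pth adj x x l →
    ∃ (ι : Type) (F : Finset ι) (c : ι → ℝ) (b : ι → V) (f : ι → List (V × V)),
      (∀ i, Pth adj (b i) (b i) (f i) ∧ (f i).length ≤ r) ∧
      ∑ i ∈ F, |c i| ≤ C * l.length ∧
      ∀ th : V → V → ℝ, (∀ u v, th v u = -th u v) → psum th l = ∑ i ∈ F, c i * psum th (f i)

/-- `d` is the path metric of the connected graph `adj` -/
structure Gm (adj : V → V → Prop) (d : V → V → ℕ) : Prop where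
  self : ∀ x, d x x = 0
  symm : ∀ x y, d x y = d y x
  tri : ∀ x y z, d x z ≤ d x y + d y z
  adjs : ∀ x y, adj x y → adj y x
  one : ∀ x y, adj x y → d x y ≤ 1
  geo : ∀ x y, ∃ l, Pth adj x y l ∧ l.length = d x y

/-- `p 0, p 1, .., p (d x y)` is a geodesic from `x` to `y` -/
structure Geo (adj : V → V → Prop) (d : V → V → ℕ) (x y : V) (p : ℕ → V) : Prop where
  zero : p 0 = x
  last : p (d x y) = y
  dist : ∀ i j, i ≤ j → j ≤ d x y → d (p i) (p j) = j - i
  adj : ∀ i, i < d x y → adj (p i) (p (i + 1))

/-- there is a path from `u` to `v` of length at most `n`, all vertices of edges of which have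
distance at least `R` from `P` -/
def Fp (adj : V → V → Prop) (d : V → V → ℕ) (P : V) (R : ℕ) (u v : V) (n : ℕ) : Prop :=
  ∃ l, Pth adj u v l ∧ l.length ≤ n ∧ ∀ e ∈ l, R ≤ d P e.1 ∧ R ≤ d P e.2

/-- all geodesic triangles of perimeter at most `n` are `R`-slim -/
def SlimN (adj : V → V → Prop) (d : V → V → ℕ) (n R : ℕ) : Prop :=
  ∀ (x y z : V) (a b c : ℕ → V), Geo adj d x y a → Geo adj d y z b → Geo adj d x z c →
    d x y + d y z + d x z ≤ n → ∀ m ≤ d x z,
      (∃ k ≤ d x y, d (c m) (a k) ≤ R) ∨ ∃ k ≤ d y z, d (c m) (b k) ≤ R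

/-- the edge `(u, v)` goes from level `k` to level `k + 1` around `z` -/
def Up (d : V → V → ℕ) (z : V) (k : ℕ) (u v : V) : Prop := d z u = k ∧ d z v = k + 1

open Classical in
/-- the cochain `L_k` of 3.4: `z` the centre, `q` the point `x_k` -/
def Lk (d : V → V → ℕ) (z q : V) (k : ℕ) (u v : V) : ℝ :=
  if Up d z k u v then (d q u : ℝ) else if Up d z k v u then -(d q v : ℝ) else 0

end graphs

end SclIrr.Y
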