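import Pool.Agent.Lib.MP_ed1a61_al_Y.Geod

/-!
# MP_ed1a61_al (S03478), block Y, module Far: far paths

PROOFS.  `refl`: the empty path.  `trans`: append.  `symm`: `Pth.exists_rev`.
* `Fp.short`: a geodesic path from `u` to `v` (`Gm.geo`): every edge end `w` has `d u w ≤ d u v`
  (`Pth.dist_mem`), so `d P w ≥ d P u - d u w ≥ R`.
* `Fp.side`: `Geo.exists_path`.
-/

noncomputable section

namespace SclIrr.Y

variable {V : Type} {adj : V → V → Prop} {d : V → V → ℕ} {P u v w : V} {R n k : ℕ}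

theorem Fp.refl (adj : V → V → Prop) (d : V → V → ℕ) (P u : V) (R n : ℕ) :
    Fp adj d P R u u n :=
  ⟨[], Pth.nil u, Nat.zero_le n, fun _ he => absurd he List.not_mem_nil⟩

theorem Fp.mono (h : Fp adj d P R u v n) (hk : n ≤ k) : Fp adj d P R u v k := by
  obtain ⟨l, h1, h2, h3⟩ := h
  exact ⟨l, h1, h2.trans hk, h3⟩

theorem Fp.trans (h : Fp adj d P R u v n) (h' : Fp adj d P R v w k) :
    Fp adj d P R u w (n + k) := by
  obtain ⟨l, h1, h2, h3⟩ := h
  obtain ⟨l', h4, h5, h6⟩ := h'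
  refine ⟨l ++ l', h1.append h4, ?_, fun e he => ?_⟩
  · rw [List.length_append]
    exact Nat.add_le_add h2 h5
  · rcases List.mem_append.1 he with he | he
    · exact h3 e he
    · exact h6 e he

theorem Fp.symm (hG : Gm adj d) (h : Fp adj d P R u v n) : Fp adj d P R v u n := by
  obtain ⟨l, h1, h2, h3⟩ := h
  obtain ⟨l', h4, h5, h6⟩ := h1.exists_rev hG
  exact ⟨l', h4, h5.le.trans h2, fun e he => (h3 _ (h6 e he)).symm⟩

theorem Fp.short (hG : Gm adj d) (h : R + d u v ≤ d P u) : Fp adj d P R u v (d u v) := by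
  obtain ⟨l, h1, h2⟩ := hG.geo u v
  refine ⟨l, h1, h2.le, fun e he => ?_⟩
  obtain ⟨h3, h4⟩ := h1.dist_mem hG e he
  have h5 := hG.tri P e.1 u
  have h6 := hG.tri P e.2 u
  have h7 := hG.symm e.1 u
  have h8 := hG.symm e.2 u
  exact ⟨by omega, by omega⟩

theorem Fp.side (hG : Gm adj d) {x y : V} {p : ℕ → V} (h : Geo adj d x y p)
    (hfar : ∀ i ≤ d x y, R ≤ d P (p i)) {i j : ℕ} (hi : i ≤ d x y) (hj : j ≤ d x y) :
    Fp adj d P R (p i) (p j) (d (p i) (p j)) := by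
  obtain ⟨l, h1, h2, h3⟩ := h.exists_path hG hi hj
  refine ⟨l, h1, h2.le, fun e he => ?_⟩
  obtain ⟨⟨k, hk, hk'⟩, m, hm, hm'⟩ := h3 e he
  rw [hk', hm']
  exact ⟨hfar k hk, hfar m hm⟩

end SclIrr.Y
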