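import Pool.Agent.Lib.MP_ed1a61_al_Y.Path

/-!
# MP_ed1a61_al (S03478), block Y, module Geod: geodesics

PROOFS.
* `exists_geo`: `Gm.geo` gives a path `l` of length `n = d x y`.  Let `p i` be the `i`-th vertex
  (define by recursion on the list: `vx x [] i = x`, `vx x ((u, v) :: l) 0 = x`,
  `vx x ((u, v) :: l) (i + 1) = vx v l i`, or prove by induction on `Pth adj x y l`:
  there is `p` with `p 0 = x`, `p l.length = y`, `adj (p i) (p (i + 1))` for `i < l.length`).  Then
  `d (p i) (p j) ≤ j - i` for `i ≤ j ≤ n` (triangle inequality), and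
  `n = d x y ≤ d x (p i) + d (p i) (p j) + d (p j) y ≤ i + d (p i) (p j) + (n - j)` gives equality.
* `rev`, `init`: immediate (`d x (p k) = k` by `dist 0 k`).
* `dist_left`, `dist_right`, `dist'`: from `dist`, `zero`, `last`, `symm`.
* `path_seg`: the list `seg p i n` of the `n` edges from `p i`; induction on `n`.
* `exists_path`: if `i ≤ j` the list `seg p i (j - i)`, else the reversed path (`exists_rev`).
-/

noncomputable section

namespace SclIrr.Y

variable {V : Type} {adj : V → V → Prop} {d : V → V → ℕ}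

/-- the list of the `n` edges `(p i, p (i + 1)), ..` -/
def seg (p : ℕ → V) : ℕ → ℕ → List (V × V)
  | _, 0 => []
  | i, n + 1 => (p i, p (i + 1)) :: seg p (i + 1) n

theorem seg_length (p : ℕ → V) (i n : ℕ) : (seg p i n).length = n := by
  induction n generalizing i with
  | zero => rfl
  | succ n ih => rw [seg, List.length_cons, ih]

theorem mem_seg {p : ℕ → V} {i n : ℕ} {e : V × V} (h : e ∈ seg p i n) :
    ∃ k, i ≤ k ∧ k < i + n ∧ e = (p k, p (k + 1)) := by
  induction n generalizing i with
  | zero => exact absurd h List.not_mem_nil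
  | succ n ih =>
    rw [seg] at h
    rcases List.mem_cons.1 h with h | h
    · exact ⟨i, le_rfl, by omega, h⟩
    · obtain ⟨k, h1, h2, h3⟩ := ih h
      exact ⟨k, by omega, by omega, h3⟩

theorem psum_seg (th : V → V → ℝ) (p : ℕ → V) (i n : ℕ) :
    psum th (seg p i n) = ∑ k ∈ Finset.range n, th (p (i + k)) (p (i + k + 1)) := by
  induction n generalizing i with
  | zero => simp [seg]
  | succ n ih =>
    rw [seg, psum_cons, ih, Finset.sum_range_succ', add_comm]
    congr 1
    refine Finset.sum_congr rfl fun k _ => ?_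
    rw [show i + 1 + k = i + (k + 1) by omega]

private theorem geod_vx {x y : V} {l : List (V × V)} (h : Pth adj x y l) :
    ∃ p : ℕ → V, p 0 = x ∧ p l.length = y ∧ ∀ i, i < l.length → adj (p i) (p (i + 1)) := by
  induction h with
  | nil x => exact ⟨fun _ => x, rfl, rfl, fun i hi => absurd hi (Nat.not_lt_zero i)⟩
  | @cons x y z l ha _ ih =>
    obtain ⟨p, h0, h1, h2⟩ := ih
    refine ⟨fun i => Nat.casesOn i x p, rfl, ?_, ?_⟩
    · rw [List.length_cons]
      exact h1
    · intro i hi
      rw [List.length_cons] at hi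
      cases i with
      | zero =>
        show adj x (p 0)
        rw [h0]
        exact ha
      | succ i => exact h2 i (by omega)

theorem exists_geo (hG : Gm adj d) (x y : V) : ∃ p, Geo adj d x y p := by
  obtain ⟨l, hl, hlen⟩ := hG.geo x y
  obtain ⟨p, h0, h1, h2⟩ := geod_vx hl
  rw [hlen] at h1 h2
  have hle : ∀ n i, i + n ≤ d x y → d (p i) (p (i + n)) ≤ n := by
    intro n
    induction n with
    | zero => intro i _; rw [Nat.add_zero, hG.self]
    | succ n ih =>
      intro i hi
      have h3 := hG.tri (p i) (p (i + n)) (p (i + (n + 1)))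
      have h4 := ih i (by omega)
      have h5 := hG.one _ _ (h2 (i + n) (by omega))
      rw [show i + n + 1 = i + (n + 1) by omega] at h5
      omega
  refine ⟨p, ⟨h0, h1, ?_, h2⟩⟩
  intro i j hij hj
  have h3 := hle (j - i) i (by omega)
  rw [show i + (j - i) = j by omega] at h3
  have h4 := hle i 0 (by omega)
  rw [Nat.zero_add, h0] at h4
  have h5 := hle (d x y - j) j (by omega)
  rw [show j + (d x y - j) = d x y by omega, h1] at h5
  have h6 := hG.tri x (p i) y
  have h7 := hG.tri (p i) (p j) y
  omega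

variable {x y : V} {p : ℕ → V}

theorem Geo.rev (hG : Gm adj d) (h : Geo adj d x y p) :
    Geo adj d y x (fun i => p (d x y - i)) := by
  have hs : d y x = d x y := hG.symm y x
  refine ⟨?_, ?_, ?_, ?_⟩
  · show p (d x y - 0) = y
    rw [Nat.sub_zero]
    exact h.last
  · show p (d x y - d y x) = x
    rw [hs, Nat.sub_self]
    exact h.zero
  · intro i j hij hj
    rw [hs] at hj
    show d (p (d x y - i)) (p (d x y - j)) = j - i
    rw [hG.symm, h.dist _ _ (by omega) (by omega)]
    omega
  · intro i hi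
    rw [hs] at hi
    show adj (p (d x y - i)) (p (d x y - (i + 1)))
    have h1 := hG.adjs _ _ (h.adj (d x y - (i + 1)) (by omega))
    rw [show d x y - (i + 1) + 1 = d x y - i by omega] at h1
    exact h1

theorem Geo.init (h : Geo adj d x y p) {k : ℕ} (hk : k ≤ d x y) : Geo adj d x (p k) p := by
  have hd : d x (p k) = k := by
    have := h.dist 0 k (Nat.zero_le _) hk
    rw [h.zero] at this
    omega
  refine ⟨h.zero, by rw [hd], fun i j hij hj => h.dist i j hij (by omega),
    fun i hi => h.adj i (by omega)⟩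

theorem Geo.dist_left (h : Geo adj d x y p) {k : ℕ} (hk : k ≤ d x y) : d x (p k) = k := by
  have := h.dist 0 k (Nat.zero_le _) hk
  rw [h.zero] at this
  omega

theorem Geo.dist_right (h : Geo adj d x y p) {k : ℕ} (hk : k ≤ d x y) :
    d (p k) y = d x y - k := by
  have := h.dist k (d x y) hk le_rfl
  rw [h.last] at this
  exact this

theorem Geo.dist' (hG : Gm adj d) (h : Geo adj d x y p) {i j : ℕ} (hi : i ≤ d x y)
    (hj : j ≤ d x y) : d (p i) (p j) = (i - j) + (j - i) := by
  rcases le_total i j with hij | hij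
  · rw [h.dist i j hij hj]
    omega
  · rw [hG.symm, h.dist j i hij hi]
    omega

theorem Geo.path_seg (h : Geo adj d x y p) {i n : ℕ} (hn : i + n ≤ d x y) :
    Pth adj (p i) (p (i + n)) (seg p i n) := by
  induction n generalizing i with
  | zero => exact Pth.nil (p i)
  | succ n ih =>
    have h1 := ih (i := i + 1) (by omega)
    rw [show i + 1 + n = i + (n + 1) by omega] at h1
    exact Pth.cons (h.adj i (by omega)) h1

theorem Geo.exists_path (hG : Gm adj d) (h : Geo adj d x y p) {i j : ℕ} (hi : i ≤ d x y)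
    (hj : j ≤ d x y) : ∃ l, Pth adj (p i) (p j) l ∧ l.length = d (p i) (p j) ∧
      ∀ e ∈ l, (∃ k ≤ d x y, e.1 = p k) ∧ ∃ k ≤ d x y, e.2 = p k := by
  have key : ∀ i j, i ≤ j → j ≤ d x y → ∃ l, Pth adj (p i) (p j) l ∧
      l.length = d (p i) (p j) ∧
      ∀ e ∈ l, (∃ k ≤ d x y, e.1 = p k) ∧ ∃ k ≤ d x y, e.2 = p k := by
    intro i j hij hj
    have h1 := h.path_seg (i := i) (n := j - i) (by omega)
    rw [show i + (j - i) = j by omega] at h1
    refine ⟨_, h1, ?_, ?_⟩
    · rw [seg_length, h.dist i j hij hj]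
    · intro e he
      obtain ⟨k, h2, h3, h4⟩ := mem_seg he
      rw [h4]
      exact ⟨⟨k, by omega, rfl⟩, ⟨k + 1, by omega, rfl⟩⟩
  rcases le_total i j with hij | hij
  · exact key i j hij hj
  · obtain ⟨l, h1, h2, h3⟩ := key j i hij hi
    obtain ⟨l', h4, h5, h6⟩ := h1.exists_rev hG
    refine ⟨l', h4, ?_, ?_⟩
    · rw [h5, h2, hG.symm]
    · intro e he
      exact ⟨(h3 _ (h6 e he)).2, (h3 _ (h6 e he)).1⟩

end SclIrr.Y
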