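import Pool.Agent.Lib.MP_ed1a61_al_Y.Corner

/-!
# MP_ed1a61_al (S03478), block Y, module Loop: the far loop in 3.5

`Tri` collects a triangle and a point `P = c m` of the third side which has distance `≥ R` from all
points of the two other sides.

PROOFS.
* `Tri.exit`: `i ≤ d x z` and either `c i = x` (`i = 0`), or `c i = z` (`i = d x z`), or
  `2 R ≤ d P (c i)`.  Case `i = 0`: take the point `a 0 = x` (distance `0`, `Fp.refl`).  Case
  `i = d x z`: `b (d y z) = z`.  Case `2 R ≤ d P (c i)`: `SlimN` gives a point `q` of one of the two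
  sides with `d (c i) q ≤ R`; `Fp.short` (`R + d (c i) q ≤ 2 R ≤ d P (c i)`), `Fp.mono`.
* `Tri.connect`: `q` and `q'` on the union of the two sides with `d q q' ≤ 6 R`, `d P q ≤ 3 R`:
  `Fp .. q' q (24 R)`.  Same side: `Fp.side` (`d q' q ≤ 6 R`), `mono`.  Different sides: `corner`
  with
  `Y = y`.  If `q = a k`, `q' = b k'`: `A` = initial part of the reversed `a` (`Geo.rev`,
  `Geo.init` with
  index `d x y - k`; its value there is `a (d x y - (d x y - k)) = a k`), `B = b` (`init`).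
  Perimeter: `d y q = d x y - k`, `d y q' = k'`,
  `d q q' ≤ d q x + d x z + d z q' = k + d x z + (d y z - k')`.
  If `q = b k`, `q' = a k'`: `A = b`, `B` = initial part of the reversed `a`;
  `d y q = k`, `d y q' = d x y - k'`, `d q q' ≤ d q z + d z x + d x q' = (d y z - k) + d x z + k'`.
* `Tri.loop`: `i = m - 2 R` (truncated), `j = min (m + 2 R) (d x z)`.  `R ≤ m` because `x = a 0` is
  far from `P = c m` and `d P x = m`; `R ≤ d x z - m` because `z = b (d y z)` is far.  So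
  `i + R ≤ m`, `m + R ≤ j`, `j ≤ d x z`, `j - i ≤ 4 R`.  `exit` at `i` and at `j` gives `q` and
  `q'`:
  `d q q' ≤ R + 4 R + R`, `d P q ≤ 2 R + R`.  Far path from `c j` to `q'` (`R`), `q'` to `q` (`24
  R`),
  `q` to `c i` (`R`): total `26 R`.
-/

noncomputable section

namespace SclIrr.Y

variable {V : Type} {adj : V → V → Prop} {d : V → V → ℕ}

/-- a triangle with a bad point `c m` on the third side -/
structure Tri (adj : V → V → Prop) (d : V → V → ℕ) (n R : ℕ) (x y z : V) (a b c : ℕ → V) (m : ℕ) :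
    Prop where
  ha : Geo adj d x y a
  hb : Geo adj d y z b
  hc : Geo adj d x z c
  hn : d x y + d y z + d x z ≤ n
  hm : m ≤ d x z
  fa : ∀ k ≤ d x y, R ≤ d (c m) (a k)
  fb : ∀ k ≤ d y z, R ≤ d (c m) (b k)

/-- `q` lies on the union of the first two sides -/
def On (d : V → V → ℕ) (x y z : V) (a b : ℕ → V) (q : V) : Prop :=
  (∃ k ≤ d x y, q = a k) ∨ ∃ k ≤ d y z, q = b k

variable {n R m : ℕ} {x y z : V} {a b c : ℕ → V}

theorem Tri.exit (hG : Gm adj d) (hS : SlimN adj d n R) (h : Tri adj d n R x y z a b c m) {i : ℕ}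
    (hi : i ≤ d x z) (h1 : i = 0 ∨ i = d x z ∨ 2 * R ≤ d (c m) (c i)) :
    ∃ q, On d x y z a b q ∧ d (c i) q ≤ R ∧ Fp adj d (c m) R (c i) q R := by
  rcases h1 with rfl | rfl | h1
  · refine ⟨a 0, Or.inl ⟨0, Nat.zero_le _, rfl⟩, ?_, ?_⟩
    · rw [h.hc.zero, h.ha.zero, hG.self]
      exact Nat.zero_le _
    · rw [h.hc.zero, h.ha.zero]
      exact Fp.refl _ _ _ _ _ _
  · refine ⟨b (d y z), Or.inr ⟨d y z, le_rfl, rfl⟩, ?_, ?_⟩
    · rw [h.hc.last, h.hb.last, hG.self]
      exact Nat.zero_le _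
    · rw [h.hc.last, h.hb.last]
      exact Fp.refl _ _ _ _ _ _
  · rcases hS x y z a b c h.ha h.hb h.hc h.hn i hi with ⟨k, hk, hd⟩ | ⟨k, hk, hd⟩
    · exact ⟨a k, Or.inl ⟨k, hk, rfl⟩, hd, (Fp.short hG (by omega)).mono hd⟩
    · exact ⟨b k, Or.inr ⟨k, hk, rfl⟩, hd, (Fp.short hG (by omega)).mono hd⟩

private theorem Tri.per (hG : Gm adj d) (h : Tri adj d n R x y z a b c m) {k k' : ℕ}
    (hk : k ≤ d x y) (hk' : k' ≤ d y z) : d y (a k) + d y (b k') + d (a k) (b k') ≤ n := by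
  have h1 := h.ha.dist_right hk
  have h2 := h.hb.dist_left hk'
  have h3 := h.ha.dist_left hk
  have h4 := h.hb.dist_right hk'
  have h5 := hG.tri (a k) x (b k')
  have h6 := hG.tri x z (b k')
  have h7 := hG.symm y (a k)
  have h8 := hG.symm (a k) x
  have h9 := hG.symm z (b k')
  have h10 := h.hn
  omega

private theorem Tri.rinit (hG : Gm adj d) (h : Tri adj d n R x y z a b c m) {k : ℕ}
    (hk : k ≤ d x y) : Geo adj d y (a k) (fun i => a (d x y - i)) := by
  have h1 : d x y - k ≤ d y x := by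
    rw [hG.symm y x]
    exact Nat.sub_le _ _
  have h2 := (h.ha.rev hG).init h1
  have h3 : d x y - (d x y - k) = k := Nat.sub_sub_self hk
  simp only [h3] at h2
  exact h2

private theorem Tri.rfar (_ : Gm adj d) (h : Tri adj d n R x y z a b c m) {k : ℕ}
    (_ : k ≤ d x y) : ∀ i ≤ d y (a k), R ≤ d (c m) ((fun i => a (d x y - i)) i) :=
  fun _ _ => h.fa _ (Nat.sub_le _ _)

private theorem Tri.bfar (h : Tri adj d n R x y z a b c m) {k : ℕ}
    (hk : k ≤ d y z) : ∀ i ≤ d y (b k), R ≤ d (c m) (b i) := fun i hi => by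
  rw [h.hb.dist_left hk] at hi
  exact h.fb i (hi.trans hk)

theorem Tri.connect (hG : Gm adj d) (hR : 1 ≤ R) (hS : SlimN adj d n R)
    (h : Tri adj d n R x y z a b c m) {q q' : V} (hq : On d x y z a b q)
    (hq' : On d x y z a b q') (h6 : d q q' ≤ 6 * R) (h3 : d (c m) q ≤ 3 * R) :
    Fp adj d (c m) R q' q (24 * R) := by
  rcases hq with ⟨k, hk, rfl⟩ | ⟨k, hk, rfl⟩ <;> rcases hq' with ⟨k', hk', rfl⟩ | ⟨k', hk', rfl⟩
  · refine (Fp.side hG h.ha h.fa hk' hk).mono ?_
    rw [hG.symm]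
    omega
  · have h1 := h.per hG hk hk'
    exact corner hG hR hS (h.rinit hG hk) (h.hb.init hk') (h.rfar hG hk) (h.bfar hk')
      h1 h6 h3
  · have h1 := h.per hG hk' hk
    refine corner hG hR hS (h.hb.init hk) (h.rinit hG hk') (h.bfar hk) (h.rfar hG hk') ?_ h6 h3
    rw [hG.symm (b k) (a k')]
    omega
  · refine (Fp.side hG h.hb h.fb hk' hk).mono ?_
    rw [hG.symm]
    omega

theorem Tri.loop (hG : Gm adj d) (hR : 1 ≤ R) (hS : SlimN adj d n R)
    (h : Tri adj d n R x y z a b c m) : ∃ i j, i + R ≤ m ∧ m + R ≤ j ∧ j ≤ d x z ∧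
      j - i ≤ 4 * R ∧ Fp adj d (c m) R (c j) (c i) (26 * R) := by
  have e1 := h.fa 0 (Nat.zero_le _)
  have e2 := h.hc.dist_left h.hm
  have e3 := h.fb (d y z) le_rfl
  have e4 := h.hc.dist_right h.hm
  have hm := h.hm
  rw [h.ha.zero, hG.symm, e2] at e1
  rw [h.hb.last, e4] at e3
  have hj : min (m + 2 * R) (d x z) ≤ d x z := min_le_right _ _
  have hi : m - 2 * R ≤ d x z := (Nat.sub_le _ _).trans hm
  have di := h.hc.dist' hG hm hi
  have dj := h.hc.dist' hG hm hj
  have dij := h.hc.dist' hG hi hj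
  obtain ⟨q, hq, hq1, hq2⟩ := h.exit hG hS hi (by omega)
  obtain ⟨q', hq', hq1', hq2'⟩ := h.exit hG hS hj (by omega)
  refine ⟨m - 2 * R, min (m + 2 * R) (d x z), by omega, by omega, hj, by omega, ?_⟩
  have t1 := hG.tri q (c (m - 2 * R)) q'
  have t2 := hG.tri (c (m - 2 * R)) (c (min (m + 2 * R) (d x z))) q'
  have t3 := hG.symm q (c (m - 2 * R))
  have t4 := hG.tri (c m) (c (m - 2 * R)) q
  have h1 := h.connect hG hR hS hq hq' (by omega) (by omega)
  exact ((hq2'.trans h1).trans (hq2.symm hG)).mono (by omega)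

end SclIrr.Y
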