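import Pool.Agent.Lib.MP_ed1a61_al_Y.Path

/-!
# MP_ed1a61_al (S03478), block Y, module Metric: the word metric

PROOFS.  `ladj S u v`: `v = u * s` for a letter `s`.
* `pth_of_list`: induction on the word: a word `l` in `S` and inverses with product `g` gives a path
  from `x` to `x * g` with `l.length` edges.  `list_of_pth`: the converse.
* `gm_word`: nonemptiness of the set for `d x y` by `Subgroup.exists_list_of_mem_closure`,
  then `Nat.sInf_mem` (a word of length exactly `d x y`) and `Nat.sInf_le`.  `self`: empty word.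
  `symm`: reverse and invert the word.  `tri`: append.  `adjs`: `u = v * s⁻¹`.  `one`: one letter.
  `geo`: `pth_of_list`.
-/

noncomputable section

namespace SclIrr.Y

variable {G : Type} [Group G]

/-- adjacency in the Cayley graph -/
def ladj (S : Finset G) (u v : G) : Prop := ∃ s, (s ∈ S ∨ s⁻¹ ∈ S) ∧ v = u * s

theorem pth_of_list {S : Finset G} {l : List G} (hl : ∀ s ∈ l, s ∈ S ∨ s⁻¹ ∈ S) (x : G) :
    ∃ p, Pth (ladj S) x (x * l.prod) p ∧ p.length = l.length := by
  induction l generalizing x with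
  | nil => exact ⟨[], by rw [List.prod_nil, mul_one]; exact Pth.nil x, rfl⟩
  | cons s l ih =>
    obtain ⟨p, hp, hlen⟩ := ih (fun t ht => hl t (List.mem_cons_of_mem s ht)) (x * s)
    refine ⟨(x, x * s) :: p, ?_, ?_⟩
    · rw [List.prod_cons, ← mul_assoc]
      exact Pth.cons ⟨s, hl s List.mem_cons_self, rfl⟩ hp
    · rw [List.length_cons, List.length_cons, hlen]

theorem gm_word {S : Finset G} {d : G → G → ℕ} (hcl : Subgroup.closure (S : Set G) = ⊤)
    (hd : ∀ x y : G, d x y = sInf {n : ℕ | ∃ l : List G, l.length = n ∧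
      (∀ s ∈ l, s ∈ S ∨ s⁻¹ ∈ S) ∧ l.prod = x⁻¹ * y}) : Gm (ladj S) d := by
  have hspec : ∀ x y : G, ∃ l : List G, l.length = d x y ∧
      (∀ s ∈ l, s ∈ S ∨ s⁻¹ ∈ S) ∧ l.prod = x⁻¹ * y := by
    intro x y
    have h1 : x⁻¹ * y ∈ Subgroup.closure (S : Set G) := by
      rw [hcl]
      exact Subgroup.mem_top _
    rw [← Subgroup.mem_toSubmonoid, Subgroup.closure_toSubmonoid] at h1
    obtain ⟨l, hl0, hp⟩ := Submonoid.exists_list_of_mem_closure h1
    have hl : ∀ s ∈ l, s ∈ S ∨ s⁻¹ ∈ S := fun s hs => by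
      rcases hl0 s hs with h | h
      · exact Or.inl (Finset.mem_coe.1 h)
      · exact Or.inr (Finset.mem_coe.1 (Set.mem_inv.1 h))
    have h2 : {n : ℕ | ∃ l : List G, l.length = n ∧
        (∀ s ∈ l, s ∈ S ∨ s⁻¹ ∈ S) ∧ l.prod = x⁻¹ * y}.Nonempty :=
      ⟨l.length, l, rfl, hl, hp⟩
    rw [hd x y]
    exact Nat.sInf_mem h2
  have hle : ∀ (x y : G) (l : List G), (∀ s ∈ l, s ∈ S ∨ s⁻¹ ∈ S) → l.prod = x⁻¹ * y →
      d x y ≤ l.length := by
    intro x y l hl hp
    rw [hd x y]
    exact Nat.sInf_le ⟨l, rfl, hl, hp⟩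
  have hsymm : ∀ x y : G, d y x ≤ d x y := by
    intro x y
    obtain ⟨l, h1, h2, h3⟩ := hspec x y
    have h4 := hle y x (l.map fun s => s⁻¹).reverse (fun s hs => by
      rw [List.mem_reverse, List.mem_map] at hs
      obtain ⟨t, ht, rfl⟩ := hs
      rw [inv_inv]
      exact (h2 t ht).symm) (by
      rw [← List.prod_inv_reverse, h3, mul_inv_rev, inv_inv])
    rwa [List.length_reverse, List.length_map, h1] at h4
  constructor
  · intro x
    have h1 := hle x x [] (fun s hs => absurd hs List.not_mem_nil) (by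
      rw [List.prod_nil, inv_mul_cancel])
    exact Nat.le_zero.1 h1
  · exact fun x y => le_antisymm (hsymm y x) (hsymm x y)
  · intro x y z
    obtain ⟨l, h1, h2, h3⟩ := hspec x y
    obtain ⟨l', h1', h2', h3'⟩ := hspec y z
    have h4 := hle x z (l ++ l') (fun s hs => by
      rcases List.mem_append.1 hs with h | h
      · exact h2 s h
      · exact h2' s h) (by
      rw [List.prod_append, h3, h3']
      group)
    rwa [List.length_append, h1, h1'] at h4
  · rintro x y ⟨s, hs, rfl⟩
    refine ⟨s⁻¹, ?_, by rw [mul_inv_cancel_right]⟩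
    rw [inv_inv]
    exact hs.symm
  · rintro x y ⟨s, hs, rfl⟩
    exact hle x (x * s) [s] (fun t ht => by
      rw [List.mem_singleton.1 ht]
      exact hs) (by rw [List.prod_singleton, inv_mul_cancel_left])
  · intro x y
    obtain ⟨l, h1, h2, h3⟩ := hspec x y
    obtain ⟨p, hp, hlen⟩ := pth_of_list h2 x
    rw [h3, mul_inv_cancel_left] at hp
    exact ⟨p, hp, hlen.trans h1⟩

end SclIrr.Y
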