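import Pool.Agent.Lib.MP_ed1a61_al_Y.Defs

/-!
# MP_ed1a61_al (S03478), block Y, module Path: paths

PROOFS: inductions on `Pth` (or on the list).
* `exists_rev`: take `l.reverse.map Prod.swap`; better: induction, appending the edge `(y, x)` at
  the
  end; the membership condition: every edge of the new list is `(e.2, e.1)` for an edge `e` of `l`.
* `dist_le`: triangle inequality and `Gm.one`.  `dist_mem`: for an edge `e` of the path, `d x e.1`
  and `d x e.2` are at most the length (induction; for the first edge `(x, y)`: `0` and `<= 1`).
* `psum_diff`: telescoping.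
-/

noncomputable section

namespace SclIrr.Y

variable {V : Type} {adj : V → V → Prop} {d : V → V → ℕ}

@[simp] theorem psum_nil (th : V → V → ℝ) : psum th [] = 0 := by
  simp [psum]

@[simp] theorem psum_cons (th : V → V → ℝ) (e : V × V) (l : List (V × V)) :
    psum th (e :: l) = th e.1 e.2 + psum th l := by
  simp [psum]

theorem psum_append (th : V → V → ℝ) (l l' : List (V × V)) :
    psum th (l ++ l') = psum th l + psum th l' := by
  simp [psum]

theorem psum_zero {th : V → V → ℝ} {l : List (V × V)} (h : ∀ e ∈ l, th e.1 e.2 = 0) :
    psum th l = 0 := by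
  induction l with
  | nil => exact psum_nil th
  | cons e l ih =>
    rw [psum_cons, h e List.mem_cons_self, ih fun e' he' => h e' (List.mem_cons_of_mem _ he'),
      add_zero]

theorem Pth.append {x y z : V} {l l' : List (V × V)} (h : Pth adj x y l) (h' : Pth adj y z l') :
    Pth adj x z (l ++ l') := by
  induction h with
  | nil x => exact h'
  | cons ha _ ih => exact Pth.cons ha (ih h')

theorem Pth.adj_mem {x y : V} {l : List (V × V)} (h : Pth adj x y l) : ∀ e ∈ l, adj e.1 e.2 := by
  induction h with
  | nil x => exact fun e he => absurd he List.not_mem_nil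
  | cons ha _ ih =>
    intro e he
    rcases List.mem_cons.1 he with rfl | he
    · exact ha
    · exact ih e he

theorem Pth.exists_rev (hG : Gm adj d) {x y : V} {l : List (V × V)} (h : Pth adj x y l) :
    ∃ l', Pth adj y x l' ∧ l'.length = l.length ∧ ∀ e ∈ l', (e.2, e.1) ∈ l := by
  induction h with
  | nil x => exact ⟨[], Pth.nil x, rfl, fun e he => absurd he List.not_mem_nil⟩
  | @cons x y z l ha _ ih =>
    obtain ⟨l', h1, h2, h3⟩ := ih
    refine ⟨l' ++ [(y, x)], h1.append (Pth.cons (hG.adjs _ _ ha) (Pth.nil x)), ?_, ?_⟩
    · rw [List.length_append, h2, List.length_singleton, List.length_cons]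
    · intro e he
      rcases List.mem_append.1 he with he | he
      · exact List.mem_cons_of_mem _ (h3 e he)
      · rw [List.mem_singleton.1 he]
        exact List.mem_cons_self

theorem Pth.dist_le (hG : Gm adj d) {x y : V} {l : List (V × V)} (h : Pth adj x y l) :
    d x y ≤ l.length := by
  induction h with
  | nil x => exact (hG.self x).le
  | @cons x y z l ha _ ih =>
    have h1 := hG.tri x y z
    have h2 := hG.one x y ha
    rw [List.length_cons]
    omega

theorem Pth.dist_mem (hG : Gm adj d) {x y : V} {l : List (V × V)} (h : Pth adj x y l) :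
    ∀ e ∈ l, d x e.1 ≤ l.length ∧ d x e.2 ≤ l.length := by
  induction h with
  | nil x => exact fun e he => absurd he List.not_mem_nil
  | @cons x y z l ha _ ih =>
    intro e he
    have h2 := hG.one x y ha
    rw [List.length_cons]
    rcases List.mem_cons.1 he with rfl | he
    · have h3 := hG.self x
      exact ⟨by dsimp only; omega, by dsimp only; omega⟩
    · obtain ⟨h3, h4⟩ := ih e he
      have h5 := hG.tri x y e.1
      have h6 := hG.tri x y e.2
      exact ⟨by omega, by omega⟩

theorem Pth.psum_diff {x y : V} {l : List (V × V)} (h : Pth adj x y l) (ch : V → ℝ) :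
    psum (fun u v => ch v - ch u) l = ch y - ch x := by
  induction h with
  | nil x => rw [psum_nil, sub_self]
  | cons _ _ ih =>
    rw [psum_cons, ih]
    ring

end SclIrr.Y
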