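import Pool.Agent.Lib.MP_ed1a61_al_Y.Geod

/-!
# MP_ed1a61_al (S03478), block Y, module SliceA: the cochain `L_k` on the loop

PROOFS.  `Up d z k u v` and `Up d z k v u` exclude each other (`k ≠ k + 1`).
* `Lk_anti`: case distinction.
* `Lk_far`: if `k < R ≤ d z u`, `R ≤ d z v`, neither `Up d z k u v` nor `Up d z k v u` holds.
* `psum_Lk_seg`: `p` a geodesic, `z = p m`, `i + R ≤ m`, `m + R ≤ j ≤ d x y`, `k < R`,
  `q = p (m - k)`.  By `psum_seg` the sum over the edges `(p l, p (l + 1))`, `i ≤ l < j`.
  `d z (p l) = |l - m|` (`Geo.dist'`).  The edge `l = m - k - 1` is a down crossing with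
  `-d q (p (m - k)) = 0`; the edge `l = m + k` is an up crossing with
  `d q (p (m + k)) = 2 * k`; all other terms vanish.  (`Finset.sum_eq_single (m + k - i)`, since the
  term of the down crossing is also `0`.)
-/

noncomputable section

namespace SclIrr.Y

variable {V : Type} {adj : V → V → Prop} {d : V → V → ℕ}

theorem Lk_anti (z q : V) (k : ℕ) (u v : V) : Lk d z q k v u = -Lk d z q k u v := by
  unfold Lk Up
  by_cases h1 : d z u = k ∧ d z v = k + 1
  · have h2 : ¬(d z v = k ∧ d z u = k + 1) := by omega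
    rw [if_neg h2, if_pos h1, if_pos h1]
  · by_cases h2 : d z v = k ∧ d z u = k + 1
    · rw [if_pos h2, if_neg h1, if_pos h2, neg_neg]
    · rw [if_neg h2, if_neg h1, if_neg h1, if_neg h2, neg_zero]

theorem Lk_far {z q : V} {k R : ℕ} (hk : k < R) {l : List (V × V)}
    (hl : ∀ e ∈ l, R ≤ d z e.1 ∧ R ≤ d z e.2) : psum (Lk d z q k) l = 0 := by
  refine psum_zero fun e he => ?_
  have h := hl e he
  unfold Lk Up
  rw [if_neg (by omega), if_neg (by omega)]

theorem psum_Lk_seg (hG : Gm adj d) {x y : V} {p : ℕ → V} (h : Geo adj d x y p) {i m j R k : ℕ}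
    (him : i + R ≤ m) (hmj : m + R ≤ j) (hj : j ≤ d x y) (hk : k < R) :
    psum (Lk d (p m) (p (m - k)) k) (seg p i (j - i)) = 2 * (k : ℝ) := by
  rw [psum_seg, Finset.sum_eq_single (m + k - i)]
  · have e1 : i + (m + k - i) = m + k := by omega
    have h1 : d (p m) (p (m + k)) = k := by
      rw [h.dist m (m + k) (by omega) (by omega)]; omega
    have h2 : d (p m) (p (m + k + 1)) = k + 1 := by
      rw [h.dist m (m + k + 1) (by omega) (by omega)]; omega
    have h3 : d (p (m - k)) (p (m + k)) = 2 * k := by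
      rw [h.dist (m - k) (m + k) (by omega) (by omega)]; omega
    rw [e1]
    unfold Lk Up
    rw [if_pos ⟨h1, h2⟩, h3]
    push_cast
    ring
  · intro l hl hne
    rw [Finset.mem_range] at hl
    have h1 : d (p m) (p (i + l)) = (m - (i + l)) + ((i + l) - m) :=
      h.dist' hG (by omega) (by omega)
    have h2 : d (p m) (p (i + l + 1)) = (m - (i + l + 1)) + ((i + l + 1) - m) :=
      h.dist' hG (by omega) (by omega)
    unfold Lk Up
    rw [if_neg (by omega)]
    by_cases h3 : d (p m) (p (i + l + 1)) = k ∧ d (p m) (p (i + l)) = k + 1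
    · rw [if_pos h3]
      have h4 : i + l + 1 = m - k := by omega
      rw [h4, hG.self]
      simp
    · rw [if_neg h3]
  · intro hn
    exact absurd (Finset.mem_range.2 (by omega)) hn

end SclIrr.Y
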