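import Pool.Agent.Lib.MP_ed1a61_al_Y.SliceA

/-!
# MP_ed1a61_al (S03478), block Y, module SliceB: the cochains `L_k` on a face

PROOFS.  Let `E k u v := chi_k v - chi_k u`, `chi_k u := if k + 1 ≤ d z u then 1 else 0`.
* `Lk_sub_le`: for an edge `(u, v)` (so `|d z u - d z v| ≤ 1`) with `d b u ≤ r`, `d b v ≤ r`:
  `|L_k(u, v) - d (q k) b * (chi_k v - chi_k u)| ≤ r * (if Up d z k u v ∨ Up d z k v u then 1 else
  0)`:
  up crossing: `L = d q u`, `chi` difference `1`, `|d q u - d q b| ≤ d b u ≤ r`; down crossing: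
  `L = -d q v`, difference `-1`; no crossing: `L = 0` and the difference is `0` because
  `|d z u - d z v| ≤ 1`.
* `cross_le`: for fixed `(u, v)` at most one `k` satisfies `Up d z k u v ∨ Up d z k v u`
  (`k = min (d z u) (d z v)`), so the sum over `k < R` of the indicators is at most `1`.
* `face_le`: `f` a closed path at `b`, length `≤ r`.  `psum (L_k) f = psum (L_k - d (q k) b * E k)
  f`
  (`psum_diff`: the sum of `E k` over `f` is `0`).  So `|psum (L_k) f| ≤ sum over the edges of
  r * indicator`; sum over `k`, exchange: `≤ r * f.length ≤ r ^ 2`.  (`Pth.dist_mem`,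
  `Pth.adj_mem`.)
  Advice: prove by induction on a list `l` of edges, all satisfying `adj`, `d b _ ≤ r`:
  `sum_(k<R) |psum (fun u v => Lk d z (q k) k u v - d (q k) b * (chi_k v - chi_k u)) l| ≤
  r * l.length`.
-/

noncomputable section

namespace SclIrr.Y

variable {V : Type} {adj : V → V → Prop} {d : V → V → ℕ}

open Classical in
theorem Lk_sub_le (hG : Gm adj d) (z q b : V) (k r : ℕ) {u v : V} (huv : adj u v)
    (hu : d b u ≤ r) (hv : d b v ≤ r) :
    |Lk d z q k u v - (d q b : ℝ) *
      ((if k + 1 ≤ d z v then (1 : ℝ) else 0) - (if k + 1 ≤ d z u then (1 : ℝ) else 0))| ≤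
      r * (if Up d z k u v ∨ Up d z k v u then (1 : ℝ) else 0) := by
  have h1 : d z v ≤ d z u + 1 := (hG.tri z u v).trans (by have := hG.one u v huv; omega)
  have h2 : d z u ≤ d z v + 1 :=
    (hG.tri z v u).trans (by have := hG.one v u (hG.adjs u v huv); omega)
  have key : ∀ w, d b w ≤ r → |(d q w : ℝ) - d q b| ≤ r := by
    intro w hw
    have a1 : d q w ≤ d q b + r := (hG.tri q b w).trans (by omega)
    have a2 : d q b ≤ d q w + r := (hG.tri q w b).trans (by rw [hG.symm w b]; omega)
    have a1' : (d q w : ℝ) ≤ d q b + r := by exact_mod_cast a1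
    have a2' : (d q b : ℝ) ≤ d q w + r := by exact_mod_cast a2
    rw [abs_le]
    constructor <;> linarith
  by_cases hU : Up d z k u v
  · have e1 := hU.1
    have e2 := hU.2
    unfold Lk
    rw [if_pos hU, if_pos (Or.inl hU), if_pos (by omega), if_neg (by omega)]
    simpa using key u hu
  · by_cases hD : Up d z k v u
    · have e1 := hD.1
      have e2 := hD.2
      unfold Lk
      rw [if_neg hU, if_pos hD, if_pos (Or.inr hD), if_neg (by omega), if_pos (by omega)]
      have h3 := key v hv
      have h4 : -(d q v : ℝ) - d q b * (0 - 1) = -((d q v : ℝ) - d q b) := by ring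
      rw [h4, abs_neg]
      simpa using h3
    · have h5 : ¬ (Up d z k u v ∨ Up d z k v u) := by tauto
      unfold Lk
      rw [if_neg hU, if_neg hD, if_neg h5]
      have h6 : (if k + 1 ≤ d z v then (1 : ℝ) else 0) =
          (if k + 1 ≤ d z u then (1 : ℝ) else 0) := by
        by_cases c : k + 1 ≤ d z u
        · by_cases c' : k + 1 ≤ d z v
          · rw [if_pos c, if_pos c']
          · exact absurd ⟨by omega, by omega⟩ hD
        · by_cases c' : k + 1 ≤ d z v
          · exact absurd ⟨by omega, by omega⟩ hU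
          · rw [if_neg c, if_neg c']
      rw [h6]
      simp

open Classical in
theorem cross_le (z u v : V) (R : ℕ) :
    ∑ k ∈ Finset.range R, (if Up d z k u v ∨ Up d z k v u then (1 : ℝ) else 0) ≤ 1 := by
  have h : ∀ k ∈ Finset.range R, (if Up d z k u v ∨ Up d z k v u then (1 : ℝ) else 0) ≤
      if k = min (d z u) (d z v) then (1 : ℝ) else 0 := by
    intro k _
    by_cases c : Up d z k u v ∨ Up d z k v u
    · have e : k = min (d z u) (d z v) := by
        rcases c with ⟨c1, c2⟩ | ⟨c1, c2⟩ <;> omega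
      rw [if_pos c, if_pos e]
    · rw [if_neg c]
      split_ifs <;> norm_num
  refine (Finset.sum_le_sum h).trans ?_
  rw [Finset.sum_ite_eq']
  split_ifs <;> norm_num

open Classical in
theorem face_aux (hG : Gm adj d) (z : V) (q : ℕ → V) (R r : ℕ) (b : V) :
    ∀ l : List (V × V), (∀ e ∈ l, adj e.1 e.2 ∧ d b e.1 ≤ r ∧ d b e.2 ≤ r) →
      ∑ k ∈ Finset.range R, |psum (fun u v => Lk d z (q k) k u v - (d (q k) b : ℝ) *
        ((if k + 1 ≤ d z v then (1 : ℝ) else 0) - (if k + 1 ≤ d z u then (1 : ℝ) else 0))) l| ≤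
        r * (l.length : ℝ) := by
  intro l
  induction l with
  | nil => intro _; simp
  | cons e l ih =>
    intro h
    obtain ⟨ha, hu, hv⟩ := h e (List.mem_cons_self ..)
    have ih' := ih fun e' he' => h e' (List.mem_cons_of_mem _ he')
    have h1 : ∑ k ∈ Finset.range R, |Lk d z (q k) k e.1 e.2 - (d (q k) b : ℝ) *
        ((if k + 1 ≤ d z e.2 then (1 : ℝ) else 0) -
          (if k + 1 ≤ d z e.1 then (1 : ℝ) else 0))| ≤ r := by
      refine (Finset.sum_le_sum fun k _ => Lk_sub_le hG z (q k) b k r ha hu hv).trans ?_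
      rw [← Finset.mul_sum]
      have h2 := cross_le (d := d) z e.1 e.2 R
      have h3 : (0 : ℝ) ≤ r := Nat.cast_nonneg r
      nlinarith
    have h4 : ∀ k ∈ Finset.range R, |psum (fun u v => Lk d z (q k) k u v - (d (q k) b : ℝ) *
        ((if k + 1 ≤ d z v then (1 : ℝ) else 0) -
          (if k + 1 ≤ d z u then (1 : ℝ) else 0))) (e :: l)| ≤
        |Lk d z (q k) k e.1 e.2 - (d (q k) b : ℝ) *
        ((if k + 1 ≤ d z e.2 then (1 : ℝ) else 0) -
          (if k + 1 ≤ d z e.1 then (1 : ℝ) else 0))| +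
        |psum (fun u v => Lk d z (q k) k u v - (d (q k) b : ℝ) *
        ((if k + 1 ≤ d z v then (1 : ℝ) else 0) -
          (if k + 1 ≤ d z u then (1 : ℝ) else 0))) l| := by
      intro k _
      rw [psum_cons]
      exact abs_add_le _ _
    refine (Finset.sum_le_sum h4).trans ?_
    rw [Finset.sum_add_distrib, List.length_cons]
    push_cast
    linarith

theorem psum_sub_mul (th et : V → V → ℝ) (c : ℝ) (l : List (V × V)) :
    psum (fun u v => th u v - c * et u v) l = psum th l - c * psum et l := by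
  induction l with
  | nil => simp
  | cons e l ih => rw [psum_cons, psum_cons, psum_cons, ih]; ring

theorem face_le (hG : Gm adj d) (z : V) (q : ℕ → V) (R r : ℕ) {b : V} {f : List (V × V)}
    (hf : Pth adj b b f) (hr : f.length ≤ r) :
    ∑ k ∈ Finset.range R, |psum (Lk d z (q k) k) f| ≤ (r : ℝ) ^ 2 := by
  have hm : ∀ e ∈ f, adj e.1 e.2 ∧ d b e.1 ≤ r ∧ d b e.2 ≤ r := by
    intro e he
    obtain ⟨h1, h2⟩ := hf.dist_mem hG e he
    exact ⟨hf.adj_mem e he, h1.trans hr, h2.trans hr⟩
  have h := face_aux hG z q R r b f hm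
  have h0 : ∀ k, psum (fun u v => Lk d z (q k) k u v - (d (q k) b : ℝ) *
      ((if k + 1 ≤ d z v then (1 : ℝ) else 0) - (if k + 1 ≤ d z u then (1 : ℝ) else 0))) f =
      psum (Lk d z (q k) k) f := by
    intro k
    rw [psum_sub_mul (Lk d z (q k) k) (fun u v =>
      (if k + 1 ≤ d z v then (1 : ℝ) else 0) - (if k + 1 ≤ d z u then (1 : ℝ) else 0)),
      hf.psum_diff (fun w => if k + 1 ≤ d z w then (1 : ℝ) else 0)]
    ring
  simp only [h0] at h
  refine h.trans ?_
  have h3 : (0 : ℝ) ≤ r := Nat.cast_nonneg r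
  have h4 : (f.length : ℝ) ≤ r := by exact_mod_cast hr
  nlinarith

end SclIrr.Y
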